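import Pool.Agent.Helper24.GG.HARTc

/-! # Module HART: Hartogs for surfaces, in terms of valuation subrings -/

set_option autoImplicit false

namespace Pool.Agent.Helper92.GG

open MvPolynomial
open Pool.Agent.Helper49.Girth (cl ty mem_cl' coe_cl subset_cl)

universe u

/-- a power of an algebraic element is separable -/
theorem HART_sep (F L : Type u) [Field F] [Field L] [Algebra F L] (p : ℕ) [ExpChar F p]
    (z : L) (hz : IsAlgebraic F z) : ∃ N : ℕ, ∀ M, N ≤ M → IsSeparable F (z ^ p ^ M) := by
  obtain ⟨g, h1, N, h2⟩ := (minpoly.irreducible hz.isIntegral).hasSeparableContraction p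
  have hN : IsSeparable F (z ^ p ^ N) := by
    have h3 : Polynomial.aeval (z ^ p ^ N) g = 0 := by
      rw [← Polynomial.expand_aeval, h2]
      exact minpoly.aeval F z
    exact h1.of_dvd (minpoly.dvd F _ h3)
  refine ⟨N, fun M hM => ?_⟩
  have h4 : z ^ p ^ N ∈ separableClosure F L := mem_separableClosure_iff.mpr hN
  have h5 : z ^ p ^ M = (z ^ p ^ N) ^ p ^ (M - N) := by
    rw [← pow_mul, ← pow_add]; congr 2; omega
  rw [h5]
  exact mem_separableClosure_iff.mp (pow_mem h4 _)

theorem HART_sep_all (F L : Type u) [Field F] [Field L] [Algebra F L] (p : ℕ) [ExpChar F p]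
    (T : Set L) (hT : T.Finite) (hz : ∀ z ∈ T, IsAlgebraic F z) :
    ∃ N : ℕ, ∀ z ∈ T, IsSeparable F (z ^ p ^ N) := by
  classical
  have h : ∀ z : L, ∃ N : ℕ, z ∈ T → ∀ M, N ≤ M → IsSeparable F (z ^ p ^ M) := by
    intro z
    by_cases hzT : z ∈ T
    · obtain ⟨N, hN⟩ := HART_sep F L p z (hz z hzT)
      exact ⟨N, fun _ => hN⟩
    · exact ⟨0, fun h => absurd h hzT⟩
  choose N hN using h
  refine ⟨hT.toFinset.sup N, fun z hzT => hN z hzT _ ?_⟩
  exact Finset.le_sup (hT.mem_toFinset.mpr hzT)

theorem st_HART (hlem : ST_HLEM.{u}) : ST_HART.{u} := by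
  intro k L _ _ _ _ _ n v x U hUk hUv hrk e₀ he₀ he S hS hScl
  classical
  -- Noether normalization
  let B := Algebra.adjoin k (Set.range v)
  have hBft : Algebra.FiniteType k B := by
    have h1 : (Algebra.adjoin k (Set.range v)).FG :=
      Subalgebra.fg_def.mpr ⟨_, Set.finite_range v, rfl⟩
    exact (Subalgebra.fg_iff_finiteType _).mp h1
  obtain ⟨s, g, hginj, hgint⟩ := exists_integral_inj_algHom_of_fg k B
  let P := MvPolynomial (Fin s) k
  let iPB : Algebra P B := g.toRingHom.toAlgebra
  let iPL : Algebra P L := ((algebraMap B L).comp g.toRingHom).toAlgebra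
  have tPBL : IsScalarTower P B L := IsScalarTower.of_algebraMap_eq (fun _ => rfl)
  have hG : ∀ f : P, algebraMap P L f = (g f : L) := fun f => rfl
  have hGinj : Function.Injective (algebraMap P L) := by
    intro a b hab
    apply hginj
    apply Subtype.ext
    exact hab
  have : FaithfulSMul P L := (faithfulSMul_iff_algebraMap_injective P L).mpr hGinj
  have : Algebra.IsIntegral P B := ⟨fun b => hgint b⟩
  have : Algebra.IsAlgebraic P B := inferInstance
  have : IsScalarTower k P L := by
    apply IsScalarTower.of_algebraMap_eq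
    intro c
    rw [hG, show (algebraMap k P c) = C c from rfl, ← algebraMap_eq, AlgHom.commutes]
    rfl
  -- elements of `k[v]` in terms of polynomials
  have hBf : ∀ b : B, ∃ f : MvPolynomial (Fin n) k, aeval v f = (b : L) := by
    intro b
    have hb := b.2
    have : ∀ y ∈ Algebra.adjoin k (Set.range v), ∃ f : MvPolynomial (Fin n) k,
        aeval v f = y := by
      intro y hy
      rw [Algebra.adjoin_range_eq_range_aeval] at hy
      obtain ⟨f, hf⟩ := hy
      exact ⟨f, hf⟩
    exact this _ hb
  choose h hh using fun i : Fin s => hBf (g (X i))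
  let ψ : P →ₐ[k] MvPolynomial (Fin n) k := aeval h
  have hψ : ∀ f : P, aeval v (ψ f) = algebraMap P L f := by
    intro f
    have : ((aeval v).comp ψ : P →ₐ[k] L) = (B.val).comp g := by
      apply MvPolynomial.algHom_ext
      intro i
      simp only [AlgHom.comp_apply, ψ, aeval_X]
      exact hh i
    exact congrArg (fun φ : P →ₐ[k] L => φ f) this
  have hint : ∀ y : L, IsIntegral P y → HART_int (k := k) v y := by
    rintro y ⟨p, hp, hy⟩
    refine ⟨p.map ψ.toRingHom, hp.map _, ?_⟩
    rw [Polynomial.eval₂_map]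
    have : ((aeval v : MvPolynomial (Fin n) k →ₐ[k] L) : MvPolynomial (Fin n) k →+* L).comp
        ψ.toRingHom = algebraMap P L := RingHom.ext hψ
    rw [this]
    exact hy
  have hBint : ∀ b : B, IsIntegral P (b : L) := fun b =>
    (Algebra.IsIntegral.isIntegral (R := P) b).map (IsScalarTower.toAlgHom P B L)
  have hvB : ∀ i, v i ∈ Algebra.adjoin k (Set.range v) := fun i =>
    Algebra.subset_adjoin ⟨i, rfl⟩
  -- the fraction field
  let F₀ := FractionRing P
  let iF : Algebra F₀ L := FractionRing.liftAlgebra P L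
  have tF : IsScalarTower P F₀ L := FractionRing.isScalarTower_liftAlgebra P L
  have halg : ∀ z ∈ cl k (Set.range v), IsAlgebraic F₀ z := by
    intro z hz
    have h1 : IsAlgebraic B z := mem_cl'.mp hz
    have h2 : IsAlgebraic P z := h1.restrictScalars P
    exact h2.extendScalars (IsFractionRing.injective P F₀)
  let T : Set L := S ∪ {e₀} ∪ Set.range v
  have hTfin : T.Finite := (hS.union (Set.finite_singleton _)).union (Set.finite_range v)
  have hTcl : ∀ z ∈ T, IsAlgebraic F₀ z := by
    rintro z ((hz | hz) | ⟨i, rfl⟩)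
    · exact halg z (hScl z hz)
    · rw [Set.mem_singleton_iff] at hz
      rw [hz]; exact halg _ he₀
    · exact halg _ (subset_cl _ ⟨i, rfl⟩)
  obtain ⟨p, hp⟩ := ExpChar.exists k
  have : ExpChar L p := expChar_of_injective_algebraMap (algebraMap k L).injective p
  have : ExpChar P p := expChar_of_injective_algebraMap (R := k) (A := P)
    (MvPolynomial.C_injective _ _) p
  have : ExpChar F₀ p := expChar_of_injective_algebraMap (R := P) (A := F₀)
    (IsFractionRing.injective P F₀) p
  obtain ⟨N, hN⟩ := HART_sep_all F₀ L p T hTfin hTcl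
  let E : IntermediateField F₀ L := IntermediateField.adjoin F₀ ((fun z => z ^ p ^ N) '' T)
  have hsep : Algebra.IsSeparable F₀ E := by
    rw [IntermediateField.isSeparable_adjoin_iff_isSeparable]
    rintro _ ⟨z, hz, rfl⟩
    exact hN z hz
  have hfin : FiniteDimensional F₀ E := by
    have : Finite ((fun z : L => z ^ p ^ N) '' T) := (hTfin.image _)
    apply IntermediateField.finiteDimensional_adjoin
    rintro _ ⟨z, hz, rfl⟩
    exact (hN z hz).isIntegral
  have hTE : ∀ z ∈ T, z ^ p ^ N ∈ E := fun z hz =>
    IntermediateField.subset_adjoin F₀ _ ⟨z, hz, rfl⟩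
  let A := integralClosure P E
  have : IsFractionRing A E := integralClosure.isFractionRing_of_finite_extension F₀ E
  have : IsIntegrallyClosed A := integralClosure.isIntegrallyClosedOfFiniteExtension F₀
  have : IsNoetherianRing A := integralClosure.isNoetherianRing (A := P) (K := F₀) E
  have tPEL : IsScalarTower P E L := IsScalarTower.of_algebraMap_eq (fun _ => rfl)
  have hPE : ∀ f : P, algebraMap E L (algebraMap P E f) = algebraMap P L f := fun f =>
    (IsScalarTower.algebraMap_apply P E L f).symm
  have hmk : ∀ y : L, y ∈ E → IsIntegral P y → ∃ a : A, algebraMap E L (algebraMap A E a) = y := by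
    intro y hy hyi
    have h1 : IsIntegral P (⟨y, hy⟩ : E) := by
      have h2 : IsIntegral P (algebraMap E L ⟨y, hy⟩) := hyi
      exact (isIntegral_algebraMap_iff (FaithfulSMul.algebraMap_injective E L)).mp h2
    exact ⟨⟨⟨y, hy⟩, h1⟩, rfl⟩
  apply HART_core k L n v x U hUk hUv hrk e₀ he S A E (algebraMap E L) (p ^ N)
  · exact pow_ne_zero _ (expChar_pos k p).ne'
  · intro a b
    exact sub_pow_expChar_pow a b N
  · intro c
    refine ⟨algebraMap P A (C c), ?_⟩
    rw [← IsScalarTower.algebraMap_apply P A E, hPE]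
    rw [show (C c : P) = algebraMap k P c from rfl, ← IsScalarTower.algebraMap_apply k P L]
  · intro a
    apply hint
    have h1 : IsIntegral P (algebraMap A E a) := a.2
    exact h1.map (IsScalarTower.toAlgHom P E L)
  · intro i
    obtain ⟨f, hf, hfv⟩ := hBint ⟨v i, hvB i⟩
    refine ⟨f.map (algebraMap P A), hf.map _, ?_⟩
    rw [Polynomial.eval₂_map]
    have : ((algebraMap E L).comp (algebraMap A E)).comp (algebraMap P A) = algebraMap P L := by
      refine RingHom.ext fun f => ?_
      rw [RingHom.comp_apply, RingHom.comp_apply, ← IsScalarTower.algebraMap_apply P A E, hPE]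
    rw [this]
    exact hfv
  · intro f
    apply hmk
    · -- membership in the field
      have hkE : ∀ c : k, algebraMap k L c ∈ E := by
        intro c
        have h1 : algebraMap k L c = algebraMap F₀ L (algebraMap P F₀ (algebraMap k P c)) := by
          rw [← IsScalarTower.algebraMap_apply P F₀ L, ← IsScalarTower.algebraMap_apply k P L]
        rw [h1]
        exact E.algebraMap_mem _
      induction f using MvPolynomial.induction_on with
      | C a => rw [aeval_C]; exact pow_mem (hkE a) _
      | add a b ha hb =>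
        rw [map_add, add_pow_expChar_pow]
        exact add_mem ha hb
      | mul_X a i ha =>
        rw [map_mul, mul_pow, aeval_X]
        exact mul_mem ha (hTE _ (Or.inr ⟨i, rfl⟩))
    · apply IsIntegral.pow
      have h1 : (aeval v f : L) ∈ Algebra.adjoin k (Set.range v) := by
        rw [Algebra.adjoin_range_eq_range_aeval]
        exact ⟨f, rfl⟩
      exact hBint ⟨_, h1⟩
  · exact ⟨⟨_, hTE e₀ (Or.inl (Or.inr rfl))⟩, rfl⟩
  · intro Y hY
    exact ⟨⟨_, hTE Y (Or.inl (Or.inl hY))⟩, rfl⟩
  · exact hlem

end Pool.Agent.Helper92.GG
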