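import Pool.Agent.Helper92.GG.Stmts

/-! # Module HART, part a: valuation rings -/

set_option autoImplicit false

namespace Pool.Agent.Helper92.GG

open MvPolynomial
open Pool.Agent.Helper49.Girth (cl ty mem_cl')

universe u

section basics

variable {L : Type u} [Field L]

theorem HART_val_le (V : ValuationSubring L) {a : L} : V.valuation a ≤ 1 ↔ a ∈ V :=
  V.valuation_le_one_iff a

/-- elements of value `< 1` form an additive group stable under multiplication by `V` -/
theorem HART_add (V : ValuationSubring L) {a b : L} (ha : V.valuation a < 1)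
    (hb : V.valuation b < 1) : V.valuation (a + b) < 1 :=
  Valuation.map_add_lt _ ha hb

theorem HART_sub (V : ValuationSubring L) {a b : L} (ha : V.valuation a < 1)
    (hb : V.valuation b < 1) : V.valuation (a - b) < 1 :=
  Valuation.map_sub_lt _ ha hb

theorem HART_mul (V : ValuationSubring L) {a b : L} (ha : V.valuation a < 1)
    (hb : b ∈ V) : V.valuation (a * b) < 1 := by
  rw [map_mul]
  exact mul_lt_one_of_nonneg_of_lt_one_left zero_le ha ((HART_val_le V).mpr hb)

theorem HART_pow (V : ValuationSubring L) {a : L} {q : ℕ} (hq : q ≠ 0) :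
    V.valuation (a ^ q) < 1 ↔ V.valuation a < 1 := by
  rw [map_pow]
  exact pow_lt_one_iff hq

theorem HART_const (k : Type u) [Field k] [Algebra k L] (V : ValuationSubring L)
    (hk : ∀ c : k, algebraMap k L c ∈ V) {c : k} (hc : V.valuation (algebraMap k L c) < 1) :
    c = 0 := by
  by_contra h
  have h1 : V.valuation (algebraMap k L c * algebraMap k L c⁻¹) < 1 := HART_mul V hc (hk _)
  rw [← map_mul, mul_inv_cancel₀ h, map_one, map_one] at h1
  exact lt_irrefl _ h1

/-- a coefficient of small value -/
theorem HART_trail (V : ValuationSubring L) (h : L) (h0 : h ≠ 0) (hV : V.valuation h < 1) :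
    ∀ (N : ℕ) (P : Polynomial L), P.natDegree ≤ N → P ≠ 0 → (∀ i, P.coeff i ∈ V) →
      P.eval h = 0 → ∃ m, P.coeff m ≠ 0 ∧ V.valuation (P.coeff m) < 1 := by
  have hhV : h ∈ V := (HART_val_le V).mp hV.le
  have hev : ∀ P : Polynomial L, (∀ i, P.coeff i ∈ V) → P.eval h ∈ V := by
    intro P hP
    rw [Polynomial.eval_eq_sum_range]
    exact sum_mem fun i _ => mul_mem (hP i) (pow_mem hhV i)
  intro N
  induction N with
  | zero =>
    intro P hN hP hc he
    exfalso
    have h1 : P = Polynomial.C (P.coeff 0) := Polynomial.eq_C_of_natDegree_le_zero hN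
    rw [h1, Polynomial.eval_C] at he
    rw [he, map_zero] at h1
    exact hP h1
  | succ N ih =>
    intro P hN hP hc he
    have hd := Polynomial.divX_mul_X_add P
    have hc' : ∀ i, P.divX.coeff i ∈ V := by
      intro i; rw [Polynomial.coeff_divX]; exact hc _
    have he' : P.divX.eval h * h + P.coeff 0 = 0 := by
      have := congrArg (Polynomial.eval h) hd
      rw [he] at this
      simpa using this
    by_cases h00 : P.coeff 0 = 0
    · have hne : P.divX ≠ 0 := by
        intro h1
        rw [h1, h00] at hd
        simp at hd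
        exact hP hd.symm
      obtain ⟨m, hm, hm'⟩ := ih P.divX (by rw [Polynomial.natDegree_divX_eq_natDegree_tsub_one]; omega)
        hne hc' (by
          rw [h00, add_zero] at he'
          exact (mul_eq_zero.mp he').resolve_right h0)
      rw [Polynomial.coeff_divX] at hm hm'
      exact ⟨m + 1, hm, hm'⟩
    · refine ⟨0, h00, ?_⟩
      have h1 : P.coeff 0 = h * (- P.divX.eval h) := by
        have := eq_neg_of_add_eq_zero_right he'
        rw [this]; ring
      rw [h1]
      exact HART_mul V hV (neg_mem (hev _ hc'))

end basics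

section integral

variable {k L : Type u} [Field k] [Field L] [Algebra k L] {n : ℕ} (v : Fin n → L)

/-- integrality over `k[v]`, in terms of polynomials -/
def HART_int (y : L) : Prop :=
  ((aeval v : MvPolynomial (Fin n) k →ₐ[k] L) : MvPolynomial (Fin n) k →+* L).IsIntegralElem y

theorem HART_aeval_mem (V : ValuationSubring L) (hk : ∀ c : k, algebraMap k L c ∈ V)
    {ι : Type} (v : ι → L) (hv : ∀ i, v i ∈ V) (f : MvPolynomial ι k) : aeval v f ∈ V := by
  induction f using MvPolynomial.induction_on with
  | C a => rw [aeval_C]; exact hk a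
  | add p q hp hq => rw [map_add]; exact add_mem hp hq
  | mul_X p i hp => rw [map_mul, aeval_X]; exact mul_mem hp (hv i)

theorem HART_int_mem (V : ValuationSubring L) (hk : ∀ c : k, algebraMap k L c ∈ V)
    (hv : ∀ i, v i ∈ V) {y : L} (hy : HART_int (k := k) v y) : y ∈ V := by
  obtain ⟨p, hp, h⟩ := hy
  let φ : MvPolynomial (Fin n) k →+* V :=
    RingHom.codRestrict (aeval v : MvPolynomial (Fin n) k →ₐ[k] L).toRingHom V
      (fun f => HART_aeval_mem V hk v hv f)
  have hi : IsIntegral V y := by
    refine ⟨p.map φ, hp.map φ, ?_⟩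
    rw [Polynomial.eval₂_map]
    exact h
  obtain ⟨z, hz⟩ := IsIntegrallyClosed.isIntegral_iff.mp hi
  rw [← hz]
  exact z.2

theorem HART_spec (V : ValuationSubring L) (hk : ∀ c : k, algebraMap k L c ∈ V)
    (x : Fin n → k) (hx : ∀ i, V.valuation (v i - algebraMap k L (x i)) < 1)
    (f : MvPolynomial (Fin n) k) : V.valuation (aeval v f - algebraMap k L (aeval x f)) < 1 := by
  have hv : ∀ i, v i ∈ V := by
    intro i
    have h1 : v i - algebraMap k L (x i) ∈ V := (HART_val_le V).mp (hx i).le
    have := add_mem h1 (hk (x i))
    simpa using this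
  induction f using MvPolynomial.induction_on with
  | C a => simp
  | add p q hp hq =>
    have : aeval v (p + q) - algebraMap k L (aeval x (p + q)) =
      (aeval v p - algebraMap k L (aeval x p)) + (aeval v q - algebraMap k L (aeval x q)) := by
      rw [map_add, map_add, map_add]; ring
    rw [this]
    exact HART_add V hp hq
  | mul_X p i hp =>
    have : aeval v (p * X i) - algebraMap k L (aeval x (p * X i)) =
      (aeval v p - algebraMap k L (aeval x p)) * v i +
        (v i - algebraMap k L (x i)) * algebraMap k L (aeval x p) := by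
      rw [map_mul, map_mul, map_mul, aeval_X, aeval_X]; ring
    rw [this]
    exact HART_add V (HART_mul V hp (hv i)) (HART_mul V (hx i) (hk _))

theorem HART_int_const [IsAlgClosed k] (V : ValuationSubring L)
    (hk : ∀ c : k, algebraMap k L c ∈ V)
    (x : Fin n → k) (hx : ∀ i, V.valuation (v i - algebraMap k L (x i)) < 1)
    {y : L} (hy : HART_int (k := k) v y) : ∃ c : k, V.valuation (y - algebraMap k L c) < 1 := by
  have hv : ∀ i, v i ∈ V := by
    intro i
    have h1 : v i - algebraMap k L (x i) ∈ V := (HART_val_le V).mp (hx i).le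
    have := add_mem h1 (hk (x i))
    simpa using this
  have hyV := HART_int_mem v V hk hv hy
  obtain ⟨p, hp, h⟩ := hy
  -- the specialized polynomial has value in the maximal ideal at y
  set p₀ : Polynomial k := p.map (aeval x : MvPolynomial (Fin n) k →ₐ[k] k).toRingHom with hp₀
  have hp₀m : p₀.Monic := hp.map _
  have h1 : V.valuation (Polynomial.aeval y p₀) < 1 := by
    have h2 : Polynomial.aeval y p₀ = - ∑ i ∈ Finset.range (p.natDegree + 1),
        (aeval v (p.coeff i) - algebraMap k L (aeval x (p.coeff i))) * y ^ i := by
      have h3 : Polynomial.eval₂ ((aeval v : MvPolynomial (Fin n) k →ₐ[k] L) :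
        MvPolynomial (Fin n) k →+* L) y p = ∑ i ∈ Finset.range (p.natDegree + 1),
          aeval v (p.coeff i) * y ^ i := Polynomial.eval₂_eq_sum_range _ _
      rw [h] at h3
      have h4 : Polynomial.aeval y p₀ = ∑ i ∈ Finset.range (p.natDegree + 1),
          algebraMap k L (aeval x (p.coeff i)) * y ^ i := by
        rw [Polynomial.aeval_eq_sum_range' (n := p.natDegree + 1)]
        · apply Finset.sum_congr rfl
          intro i _
          rw [hp₀, Polynomial.coeff_map, Algebra.smul_def]
          rfl
        · exact Nat.lt_succ_of_le Polynomial.natDegree_map_le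
      rw [h4]
      simp only [sub_mul, Finset.sum_sub_distrib]
      rw [← h3]
      ring
    rw [h2, Valuation.map_neg]
    apply Valuation.map_sum_lt _ one_ne_zero
    intro i _
    exact HART_mul V (HART_spec v V hk x hx _) (pow_mem hyV i)
  -- split
  have hsplit := IsAlgClosed.splits p₀
  have h5 : p₀ = (p₀.roots.map (fun a => Polynomial.X - Polynomial.C a)).prod := by
    exact hsplit.eq_prod_roots_of_monic hp₀m
  rw [h5] at h1
  by_contra hcon
  push Not at hcon
  have h6 : ∀ s : Multiset k, 1 ≤ V.valuation (Polynomial.aeval y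
      (s.map (fun a => Polynomial.X - Polynomial.C a)).prod) := by
    intro s
    induction s using Multiset.induction_on with
    | empty => simp
    | cons a s ih =>
      rw [Multiset.map_cons, Multiset.prod_cons, map_mul, map_mul]
      have : Polynomial.aeval y (Polynomial.X - Polynomial.C a) = y - algebraMap k L a := by
        simp
      rw [this]
      exact one_le_mul_of_one_le_of_one_le (hcon a) ih
  exact absurd h1 (not_lt.mpr (h6 _))

end integral

end Pool.Agent.Helper92.GG
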