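import Pool.Agent.Helper24.GG.HARTa

/-! # Module HART, part b: the core argument -/

set_option autoImplicit false

namespace Pool.Agent.Helper92.GG

open MvPolynomial
open Pool.Agent.Helper49.Girth (cl ty mem_cl')

universe u

section loc

variable {A F L : Type u} [CommRing A] [IsDomain A] [Field F] [Algebra A F] [IsFractionRing A F]
  [Field L] (j : F →+* L)

theorem HART_valmem (V : ValuationSubring L) (H : Ideal A) [H.IsPrime]
    (hD : IsDiscreteValuationRing (Localization.AtPrime H))
    (hAV : ∀ a : A, j (algebraMap A F a) ∈ V)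
    (hH : ∀ a : A, a ∈ H ↔ V.valuation (j (algebraMap A F a)) < 1) (z : F) (hz : j z ∈ V) :
    ∃ a b : A, b ∉ H ∧ z * algebraMap A F b = algebraMap A F a := by
  obtain ⟨c, d, hd, hzcd⟩ := IsFractionRing.div_surjective (A := A) z
  have hd0 : d ≠ 0 := nonZeroDivisors.ne_zero hd
  have hd1 : algebraMap A F d ≠ 0 := by
    rw [Ne, IsFractionRing.to_map_eq_zero_iff]; exact hd0
  have hinj : Function.Injective (algebraMap A (Localization.AtPrime H)) :=
    IsLocalization.injective _ (Ideal.primeCompl_le_nonZeroDivisors H)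
  rcases ValuationRing.dvd_total (algebraMap A (Localization.AtPrime H) d)
    (algebraMap A (Localization.AtPrime H) c) with h | h
  · obtain ⟨y, hy⟩ := h
    obtain ⟨⟨r, s⟩, hrs⟩ := IsLocalization.surj H.primeCompl y
    dsimp only at hrs
    have h1 : c * s = d * r := by
      apply hinj
      rw [map_mul, map_mul, hy, ← hrs]; ring
    refine ⟨r, s, s.2, ?_⟩
    rw [← hzcd, div_mul_eq_mul_div, div_eq_iff hd1, ← map_mul, h1, map_mul]; ring
  · obtain ⟨y, hy⟩ := h
    obtain ⟨⟨r, s⟩, hrs⟩ := IsLocalization.surj H.primeCompl y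
    dsimp only at hrs
    have h1 : d * s = c * r := by
      apply hinj
      rw [map_mul, map_mul, hy, ← hrs]; ring
    have h2 : z * algebraMap A F r = algebraMap A F s := by
      rw [← hzcd, div_mul_eq_mul_div, div_eq_iff hd1, ← map_mul, ← h1, map_mul]; ring
    refine ⟨s, r, ?_, h2⟩
    intro hr
    have h3 : V.valuation (j (algebraMap A F r) * j z) < 1 := HART_mul V ((hH r).mp hr) hz
    rw [← map_mul, mul_comm, h2] at h3
    exact s.2 ((hH _).mpr h3)

theorem HART_exists_val (H : Ideal A) [H.IsPrime] :
    ∃ V : ValuationSubring L, (∀ a : A, j (algebraMap A F a) ∈ V) ∧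
      ∀ a : A, a ∈ H ↔ V.valuation (j (algebraMap A F a)) < 1 := by
  have hJ : Function.Injective (j.comp (algebraMap A F)) :=
    j.injective.comp (IsFractionRing.injective A F)
  have hunit : ∀ y : H.primeCompl, IsUnit ((j.comp (algebraMap A F)) y) := by
    intro y
    rw [isUnit_iff_ne_zero]
    intro h
    have : (y : A) = 0 := hJ (by rw [h, map_zero])
    exact y.2 (by rw [this]; exact zero_mem _)
  let f : Localization.AtPrime H →+* L := IsLocalization.lift (M := H.primeCompl) hunit
  have hf : ∀ a : A, f (algebraMap A _ a) = j (algebraMap A F a) := fun a =>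
    IsLocalization.lift_eq hunit a
  have hfinj : Function.Injective f := by
    rw [injective_iff_map_eq_zero]
    intro y hy
    obtain ⟨⟨r, s⟩, hrs⟩ := IsLocalization.surj H.primeCompl y
    dsimp only at hrs
    have h1 := congrArg f hrs
    rw [map_mul, hy, zero_mul, hf] at h1
    have h2 : r = 0 := hJ (by rw [map_zero]; exact h1.symm)
    rw [h2, map_zero] at hrs
    have hs : IsUnit (algebraMap A (Localization.AtPrime H) s) :=
      IsLocalization.map_units _ s
    exact (hs.mul_left_eq_zero).mp hrs
  obtain ⟨V, hV⟩ := (LocalSubring.range f).exists_le_valuationSubring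
  obtain ⟨hle, hloc⟩ := LocalSubring.le_def.mp hV
  have hmem : ∀ y, f y ∈ V := fun y => hle ⟨y, rfl⟩
  refine ⟨V, fun a => by rw [← hf]; exact hmem _, fun a => ?_⟩
  constructor
  · intro ha
    by_contra hcon
    have hfa : f (algebraMap A _ a) ∈ V := hmem _
    have h1 : V.valuation (f (algebraMap A _ a)) = 1 := by
      rw [hf]
      refine le_antisymm ?_ (not_lt.mp hcon)
      rw [← hf]; exact (HART_val_le V).mpr hfa
    have hu : IsUnit (⟨f (algebraMap A _ a), hfa⟩ : V) :=
      (V.valuation_eq_one_iff _).mpr h1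
    let b : (LocalSubring.range f).toSubring := ⟨f (algebraMap A _ a), ⟨_, rfl⟩⟩
    have hb : IsUnit b := by
      apply hloc.map_nonunit
      exact hu
    obtain ⟨c, hc⟩ := hb.exists_right_inv
    obtain ⟨y, hy⟩ := c.2
    have h3 : f (algebraMap A _ a) * (c : L) = 1 := congrArg Subtype.val hc
    rw [← hy] at h3
    have h4 : algebraMap A (Localization.AtPrime H) a * y = 1 := by
      apply hfinj
      rw [map_mul, map_one]; exact h3
    have h5 : IsUnit (algebraMap A (Localization.AtPrime H) a) := IsUnit.of_mul_eq_one _ h4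
    exact ((IsLocalization.AtPrime.isUnit_to_map_iff (Localization.AtPrime H) H a).mp h5) ha
  · intro hlt
    by_contra ha
    have hs : IsUnit (algebraMap A (Localization.AtPrime H) a) :=
      IsLocalization.map_units _ (⟨a, ha⟩ : H.primeCompl)
    obtain ⟨y, hy⟩ := hs.exists_right_inv
    have h1 : V.valuation (j (algebraMap A F a) * f y) < 1 := HART_mul V hlt (hmem y)
    rw [← hf, ← map_mul, hy, map_one, map_one] at h1
    exact lt_irrefl _ h1

end loc

end Pool.Agent.Helper92.GG
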