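import Pool.Agent.Helper24.GG.HARTb

/-! # Module HART, part c: the core argument -/

set_option autoImplicit false

namespace Pool.Agent.Helper92.GG

open MvPolynomial
open Pool.Agent.Helper49.Girth (cl ty mem_cl' coe_cl subset_cl)

universe u

theorem HART_rank {k L : Type u} [Field k] [Field L] [Algebra k L] (s : Set L)
    (hrk : rk k s = 2) (α β g : L) (hα : α ∈ cl k s) (hβ : β ∈ cl k s) (hg : g ∈ cl k s)
    (hind : ∀ f : MvPolynomial (Fin 2) k, f ≠ 0 → aeval ![α, β] f ≠ 0) :
    g ∈ cl k (Set.range ![α, β]) := by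
  classical
  have h1 : AlgebraicIndependent k ![α, β] := by
    rw [algebraicIndependent_iff]
    intro p hp
    by_contra h
    exact hind p h hp
  have h2 : (AlgebraicIndependent.matroid k L).Indep (Set.range ![α, β]) :=
    AlgebraicIndependent.matroid_indep_iff.mpr h1.coe_range
  have hinj : Function.Injective ![α, β] := h1.injective
  have h3 : (AlgebraicIndependent.matroid k L).eRk (Set.range ![α, β]) = 2 := by
    rw [h2.eRk_eq_encard, ← Set.image_univ, hinj.encard_image, Set.encard_univ]
    simp
  have h4 : (AlgebraicIndependent.matroid k L).eRk s = 2 := by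
    unfold rk at hrk
    have h5 : (AlgebraicIndependent.matroid k L).eRk s ≠ ⊤ := by
      intro h; rw [h] at hrk; simp at hrk
    rw [← ENat.natCast_toNat h5, hrk]
    rfl
  have h6 : (AlgebraicIndependent.matroid k L).closure (Set.range ![α, β]) =
      (AlgebraicIndependent.matroid k L).closure
        ((AlgebraicIndependent.matroid k L).closure s) := by
    apply Matroid.IsRkFinite.closure_eq_closure_of_subset_of_eRk_ge_eRk
    · rw [← Matroid.eRk_lt_top_iff, h3]
      exact ENat.natCast_lt_top 2
    · rw [← coe_cl]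
      rintro _ ⟨i, rfl⟩
      fin_cases i
      · exact hα
      · exact hβ
    · rw [Matroid.eRk_closure_eq, h4, h3]
  have h7 : g ∈ (cl k (Set.range ![α, β]) : Set L) := by
    rw [coe_cl, h6, Matroid.closure_closure, ← coe_cl]
    exact hg
  exact h7

section core

variable (k L : Type u) [Field k] [IsAlgClosed k] [Field L] [IsAlgClosed L] [Algebra k L] (n : ℕ)
    (v : Fin n → L) (x : Fin n → k) (U : ValuationSubring L)

theorem HART_relation (hrk : rk k (Set.range v) = 2) (V : ValuationSubring L)
    (hk : ∀ c : k, algebraMap k L c ∈ V) (hv : ∀ i, v i ∈ V)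
    (h : L) (h0 : h ≠ 0) (hV : V.valuation h < 1) (hint : HART_int (k := k) v h) :
    ∀ a ∈ Algebra.adjoin k (Set.range v), ∀ b ∈ Algebra.adjoin k (Set.range v),
      ∃ f : MvPolynomial (Fin 2) k, f ≠ 0 ∧ V.valuation (aeval ![a, b] f) < 1 := by
  intro a ha b hb
  by_cases hind : ∀ f : MvPolynomial (Fin 2) k, f ≠ 0 → aeval ![a, b] f ≠ 0
  swap
  · push Not at hind
    obtain ⟨f, hf, hf0⟩ := hind
    exact ⟨f, hf, by rw [hf0, map_zero]; exact zero_lt_one⟩
  have hadj : ∀ y ∈ Algebra.adjoin k (Set.range v), y ∈ V := by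
    intro y hy
    rw [Algebra.adjoin_range_eq_range_aeval] at hy
    obtain ⟨f, rfl⟩ := hy
    exact HART_aeval_mem V hk v hv f
  have hadjcl : ∀ y ∈ Algebra.adjoin k (Set.range v), y ∈ cl k (Set.range v) := by
    intro y hy
    have : Algebra.adjoin k (Set.range v) ≤ (cl k (Set.range v)).toSubalgebra :=
      Algebra.adjoin_le (subset_cl _)
    exact this hy
  -- a nonzero element of k[v] of small value
  obtain ⟨g, hg0, hgV, hgadj⟩ : ∃ g : L, g ≠ 0 ∧ V.valuation g < 1 ∧
      g ∈ Algebra.adjoin k (Set.range v) := by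
    obtain ⟨p, hp, hroot⟩ := hint
    set P : Polynomial L := p.map ((aeval v : MvPolynomial (Fin n) k →ₐ[k] L) :
      MvPolynomial (Fin n) k →+* L) with hP
    have hPm : P.Monic := hp.map _
    obtain ⟨m, hm, hm'⟩ := HART_trail V h h0 hV P.natDegree P le_rfl hPm.ne_zero
      (fun i => by
        rw [hP, Polynomial.coeff_map]
        exact HART_aeval_mem V hk v hv _)
      (by rw [hP, Polynomial.eval_map]; exact hroot)
    refine ⟨P.coeff m, hm, hm', ?_⟩
    rw [hP, Polynomial.coeff_map, Algebra.adjoin_range_eq_range_aeval]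
    exact ⟨_, rfl⟩
  have hgcl := HART_rank (Set.range v) hrk a b g (hadjcl a ha) (hadjcl b hb) (hadjcl g hgadj) hind
  obtain ⟨p, hp0, hp⟩ := mem_cl'.mp hgcl
  have hle : Algebra.adjoin k (Set.range ![a, b]) ≤ Algebra.adjoin k (Set.range v) := by
    apply Algebra.adjoin_le
    rintro _ ⟨i, rfl⟩
    fin_cases i
    · exact ha
    · exact hb
  obtain ⟨m, hm, hm'⟩ := HART_trail V g hg0 hgV
    (p.map (algebraMap (Algebra.adjoin k (Set.range ![a, b])) L)).natDegree
    (p.map (algebraMap (Algebra.adjoin k (Set.range ![a, b])) L)) le_rfl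
    (by
      rw [Ne, Polynomial.map_eq_zero_iff (FaithfulSMul.algebraMap_injective _ _)]
      exact hp0)
    (fun i => by
      rw [Polynomial.coeff_map]
      exact hadj _ (hle (p.coeff i).2))
    (by rw [Polynomial.eval_map]; exact hp)
  rw [Polynomial.coeff_map] at hm hm'
  have hc : ∀ y ∈ Algebra.adjoin k (Set.range ![a, b]),
      ∃ f : MvPolynomial (Fin 2) k, aeval ![a, b] f = y := by
    intro y hy
    rw [Algebra.adjoin_range_eq_range_aeval] at hy
    obtain ⟨f, hf⟩ := hy
    exact ⟨f, hf⟩
  obtain ⟨f, hf⟩ := hc _ (p.coeff m).2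
  have hf' : aeval ![a, b] f = algebraMap (Algebra.adjoin k (Set.range ![a, b])) L (p.coeff m) :=
    hf
  refine ⟨f, ?_, ?_⟩
  · rintro rfl
    rw [map_zero] at hf'
    exact hm hf'.symm
  · rw [hf']; exact hm'

theorem HART_core (hUk : ∀ c : k, algebraMap k L c ∈ U)
    (hUv : ∀ i, U.valuation (v i - algebraMap k L (x i)) < 1)
    (hrk : rk k (Set.range v) = 2)
    (e₀ : L) (he : ∀ c : k, U.valuation (e₀ - algebraMap k L c) = 1)
    (S : Set L)
    (A F : Type u) [CommRing A] [IsDomain A] [IsNoetherianRing A] [IsIntegrallyClosed A]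
    [Field F] [Algebra A F] [IsFractionRing A F] (j : F →+* L)
    (q : ℕ) (hq0 : q ≠ 0) (hfrob : ∀ a b : L, (a - b) ^ q = a ^ q - b ^ q)
    (hAk : ∀ c : k, ∃ a : A, j (algebraMap A F a) = algebraMap k L c)
    (hAint : ∀ a : A, HART_int (k := k) v (j (algebraMap A F a)))
    (hvint : ∀ i, (j.comp (algebraMap A F)).IsIntegralElem (v i))
    (hvq : ∀ f : MvPolynomial (Fin n) k, ∃ a : A, j (algebraMap A F a) = (aeval v f) ^ q)
    (heq : ∃ z : F, j z = e₀ ^ q)
    (hSq : ∀ Y ∈ S, ∃ z : F, j z = Y ^ q)
    (hlem : ST_HLEM.{u}) :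
    ∃ 𝒱 : Set (ValuationSubring L),
      (∀ V ∈ 𝒱, (∀ c : k, algebraMap k L c ∈ V) ∧ (∀ i, v i ∈ V) ∧
        (∀ f : MvPolynomial (Fin n) k, V.valuation (aeval v f) < 1 → aeval x f = 0) ∧
        (∃ i, ¬ V.valuation (v i - algebraMap k L (x i)) < 1) ∧
        (∀ a ∈ Algebra.adjoin k (Set.range v), ∀ b ∈ Algebra.adjoin k (Set.range v),
          ∃ f : MvPolynomial (Fin 2) k, f ≠ 0 ∧ V.valuation (aeval ![a, b] f) < 1)) ∧
      ∀ Y ∈ S, (∀ V ∈ 𝒱, Y ∈ V) →
        (∃ c : k, U.valuation (Y - algebraMap k L c) < 1) ∧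
        (∀ V ∈ 𝒱, V.valuation Y < 1 → U.valuation Y < 1) := by
  classical
  have hUvm : ∀ i, v i ∈ U := by
    intro i
    have h1 : v i - algebraMap k L (x i) ∈ U := (HART_val_le U).mp (hUv i).le
    have := add_mem h1 (hUk (x i))
    simpa using this
  have hJinj : Function.Injective (j.comp (algebraMap A F)) :=
    j.injective.comp (IsFractionRing.injective A F)
  have hAU : ∀ a : A, j (algebraMap A F a) ∈ U := fun a =>
    HART_int_mem v U hUk hUvm (hAint a)
  have hAc : ∀ a : A, ∃ c : k, U.valuation (j (algebraMap A F a) - algebraMap k L c) < 1 :=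
    fun a => HART_int_const v U hUk x hUv (hAint a)
  -- the trace of the maximal ideal of `U`
  have hideal : ∀ (V : ValuationSubring L), (∀ a : A, j (algebraMap A F a) ∈ V) →
      ∃ (H : Ideal A) (_ : H.IsPrime),
        ∀ a : A, a ∈ H ↔ V.valuation (j (algebraMap A F a)) < 1 := by
    intro V hV
    let H : Ideal A :=
      { carrier := {a | V.valuation (j (algebraMap A F a)) < 1}
        zero_mem' := by simp
        add_mem' := by
          intro a b ha hb
          simp only [Set.mem_ofPred_eq, map_add] at *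
          exact HART_add V ha hb
        smul_mem' := by
          intro c a ha
          simp only [Set.mem_ofPred_eq, smul_eq_mul] at *
          rw [mul_comm, map_mul, map_mul j]
          exact HART_mul V ha (hV c) }
    have hH : ∀ a : A, a ∈ H ↔ V.valuation (j (algebraMap A F a)) < 1 := fun a => Iff.rfl
    refine ⟨H, ⟨?_, ?_⟩, hH⟩
    · rw [Ideal.ne_top_iff_one, hH]
      simp
    · intro a b hab
      rw [hH] at hab ⊢
      rw [hH]
      by_contra hcon
      push Not at hcon
      rw [map_mul, map_mul, map_mul] at hab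
      exact absurd hab (not_lt.mpr (one_le_mul_of_one_le_of_one_le hcon.1 hcon.2))
  obtain ⟨M, hMp, hM⟩ := hideal U hAU
  let 𝒱 : Set (ValuationSubring L) := {V | (∀ a : A, j (algebraMap A F a) ∈ V) ∧
    (∀ a : A, V.valuation (j (algebraMap A F a)) < 1 → U.valuation (j (algebraMap A F a)) < 1) ∧
    ∃ (H : Ideal A) (_ : H.IsPrime),
      (∀ a : A, a ∈ H ↔ V.valuation (j (algebraMap A F a)) < 1) ∧
      IsDiscreteValuationRing (Localization.AtPrime H)}
  -- residues of elements of `F` in the local ring of `M`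
  have hres : ∀ (z : F) (a b : A), b ∉ M → z * algebraMap A F b = algebraMap A F a →
      ∃ c : k, U.valuation (j z - algebraMap k L c) < 1 := by
    intro z a b hb hz
    obtain ⟨ca, hca⟩ := hAc a
    obtain ⟨cb, hcb⟩ := hAc b
    have hb1 : U.valuation (j (algebraMap A F b)) = 1 :=
      le_antisymm ((HART_val_le U).mpr (hAU b)) (not_lt.mp fun h => hb ((hM b).mpr h))
    have hcb0 : cb ≠ 0 := by
      rintro rfl
      rw [map_zero, sub_zero] at hcb
      exact hb ((hM b).mpr hcb)
    refine ⟨ca * cb⁻¹, ?_⟩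
    have hjb0 : j (algebraMap A F b) ≠ 0 := by
      intro h; rw [h, map_zero] at hb1; exact zero_ne_one hb1
    have hjz : j z * j (algebraMap A F b) = j (algebraMap A F a) := by
      rw [← map_mul, hz]
    -- (j z - c) * j b = j a - c * j b
    have h1 : (j z - algebraMap k L (ca * cb⁻¹)) * j (algebraMap A F b) =
        (j (algebraMap A F a) - algebraMap k L ca) -
          (j (algebraMap A F b) - algebraMap k L cb) * algebraMap k L (ca * cb⁻¹) := by
      have h2 : algebraMap k L ca = algebraMap k L cb * algebraMap k L (ca * cb⁻¹) := by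
        rw [← map_mul]; congr 1; field_simp
      rw [sub_mul, hjz]
      linear_combination h2
    have h3 : U.valuation ((j z - algebraMap k L (ca * cb⁻¹)) * j (algebraMap A F b)) < 1 := by
      rw [h1]
      exact HART_sub U hca (HART_mul U hcb (hUk _))
    rw [map_mul, hb1, mul_one] at h3
    exact h3
  have hroot : ∀ (c : k), ∃ d : k, d ^ q = c := fun c =>
    IsAlgClosed.exists_pow_nat_eq c (Nat.pos_of_ne_zero hq0)
  have hres' : ∀ (Y : L) (c : k), U.valuation (Y ^ q - algebraMap k L c) < 1 →
      ∃ d : k, U.valuation (Y - algebraMap k L d) < 1 := by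
    intro Y c hc
    obtain ⟨d, rfl⟩ := hroot c
    refine ⟨d, ?_⟩
    rw [map_pow, ← hfrob, HART_pow U hq0] at hc
    exact hc
  refine ⟨𝒱, ?_, ?_⟩
  · rintro V ⟨hAV, hVU, H, hHp, hH, hD⟩
    have hVk : ∀ c : k, algebraMap k L c ∈ V := by
      intro c
      obtain ⟨a, ha⟩ := hAk c
      rw [← ha]; exact hAV a
    have hVv : ∀ i, v i ∈ V := by
      intro i
      obtain ⟨p, hp, h⟩ := hvint i
      let φ : A →+* V := RingHom.codRestrict (j.comp (algebraMap A F)) V hAV
      have hi : IsIntegral V (v i) := by
        refine ⟨p.map φ, hp.map φ, ?_⟩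
        rw [Polynomial.eval₂_map]
        exact h
      obtain ⟨z, hz⟩ := IsIntegrallyClosed.isIntegral_iff.mp hi
      rw [← hz]
      exact z.2
    refine ⟨hVk, hVv, ?_, ?_, ?_⟩
    · intro f hf
      obtain ⟨a, ha⟩ := hvq f
      have h1 : V.valuation (j (algebraMap A F a)) < 1 := by
        rw [ha, HART_pow V hq0]; exact hf
      have h2 := hVU a h1
      rw [ha, HART_pow U hq0] at h2
      have h3 := HART_spec v U hUk x hUv f
      have h4 : U.valuation (algebraMap k L (aeval x f)) < 1 := by
        have := HART_sub U h2 h3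
        simpa using this
      exact HART_const k U hUk h4
    · by_contra hcon
      push Not at hcon
      -- every element of `A` is congruent to a constant modulo `H`
      have hMH : ∀ a : A, a ∈ M → a ∈ H := by
        intro a ha
        obtain ⟨c, hc⟩ := HART_int_const v V hVk x hcon (hAint a)
        obtain ⟨b, hb⟩ := hAk c
        have h1 : V.valuation (j (algebraMap A F (a - b))) < 1 := by
          rw [map_sub, map_sub, hb]; exact hc
        have h2 := hVU _ h1
        rw [map_sub, map_sub, hb] at h2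
        have h3 : U.valuation (algebraMap k L c) < 1 := by
          have := HART_sub U ((hM a).mp ha) h2
          simpa using this
        have h4 := HART_const k U hUk h3
        rw [h4, map_zero, sub_zero] at hc
        exact (hH a).mpr hc
      have hHM : ∀ a : A, a ∈ H ↔ U.valuation (j (algebraMap A F a)) < 1 := by
        intro a
        constructor
        · intro h; exact hVU a ((hH a).mp h)
        · intro h; exact hMH a ((hM a).mpr h)
      obtain ⟨z, hz⟩ := heq
      have he0 : U.valuation e₀ = 1 := by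
        have := he 0
        rwa [map_zero, sub_zero] at this
      have hzU : j z ∈ U := by
        rw [← HART_val_le, hz, map_pow, he0, one_pow]
      obtain ⟨a, b, hb, hab⟩ := HART_valmem j U H hD hAU hHM z hzU
      have hbM : b ∉ M := by
        intro h
        exact hb ((hHM b).mpr ((hM b).mp h))
      obtain ⟨c, hc⟩ := hres z a b hbM hab
      rw [hz] at hc
      obtain ⟨d, hd⟩ := hres' e₀ c hc
      rw [he d] at hd
      exact lt_irrefl _ hd
    · -- relations
      have hH0 : H ≠ ⊥ := by
        rintro rfl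
        have hnf : ¬ IsField (Localization.AtPrime (⊥ : Ideal A)) := hD.not_isField
        apply hnf
        rw [IsLocalRing.isField_iff_maximalIdeal_eq, ← IsLocalization.AtPrime.map_eq_maximalIdeal
          (⊥ : Ideal A) (Localization.AtPrime (⊥ : Ideal A))]
        exact Ideal.map_bot
      obtain ⟨h, hhH, hh0⟩ := Submodule.exists_mem_ne_zero_of_ne_bot hH0
      apply HART_relation k L n v hrk V hVk hVv (j (algebraMap A F h))
      · intro h1
        exact hh0 (hJinj (by rw [map_zero]; exact h1))
      · exact (hH h).mp hhH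
      · exact hAint h
  · intro Y hY hYV
    obtain ⟨z, hz⟩ := hSq Y hY
    have hloc : ∃ a b : A, b ∉ M ∧ z * algebraMap A F b = algebraMap A F a := by
      by_contra hcon
      obtain ⟨H, hHp, hHM, hH0, hHD, hHz⟩ := hlem A F M z hcon
      obtain ⟨V, hAV, hH⟩ := HART_exists_val (L := L) j H
      have hVin : V ∈ 𝒱 := by
        refine ⟨hAV, ?_, H, hHp, hH, hHD⟩
        intro a ha
        exact (hM a).mp (hHM ((hH a).mpr ha))
      have hYm := hYV V hVin
      apply hHz
      apply HART_valmem j V H hHD hAV hH z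
      rw [hz]
      exact pow_mem hYm q
    obtain ⟨a, b, hb, hab⟩ := hloc
    constructor
    · obtain ⟨c, hc⟩ := hres z a b hb hab
      rw [hz] at hc
      exact hres' Y c hc
    · rintro V ⟨hAV, hVU, H, hHp, hH, hD⟩ hVY
      have h1 : j z * j (algebraMap A F b) = j (algebraMap A F a) := by
        rw [← map_mul, hab]
      have h2 : V.valuation (j (algebraMap A F a)) < 1 := by
        rw [← h1, hz]
        exact HART_mul V ((HART_pow V hq0).mpr hVY) (hAV b)
      have h3 := hVU a h2
      have hb1 : U.valuation (j (algebraMap A F b)) = 1 :=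
        le_antisymm ((HART_val_le U).mpr (hAU b)) (not_lt.mp fun h => hb ((hM b).mpr h))
      rw [← h1, map_mul, hb1, mul_one, hz, HART_pow U hq0] at h3
      exact h3

end core

end Pool.Agent.Helper92.GG
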